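import Mathlib

set_option autoImplicit false

open MeasureTheory ProbabilityTheory Filter Topology Finset
open scoped ENNReal

namespace Pool.Agent.Results.MP_a1f67d_pr.SetwiseNotTV

noncomputable section

/-- fair coin -/
def coin : Measure Bool := (2⁻¹ : ℝ≥0∞) • Measure.dirac true + (2⁻¹ : ℝ≥0∞) • Measure.dirac false

instance : IsProbabilityMeasure coin := ⟨by
  simp [coin, ENNReal.inv_two_add_inv_two]⟩

/-- bi-infinite sequences of bits -/
abbrev Seq : Type := ℤ → Bool

/-- fair coin tossing -/
def nu : Measure Seq := Measure.infinitePi fun _ : ℤ => coin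

instance : IsProbabilityMeasure nu := by unfold nu; infer_instance

/-- the shift -/
def sh (n : ℕ) (ω : Seq) : Seq := fun j => ω (j + n)

theorem measurable_sh (n : ℕ) : Measurable (sh n) := by
  unfold sh; fun_prop

theorem map_sh (n : ℕ) : nu.map (sh n) = nu := by
  unfold nu sh
  exact Measure.map_infinitePi_infinitePi_of_inj (f := fun j : ℤ => j + n)
    (P := fun _ : ℤ => coin) (fun a b h => by simpa using h)

/-- the signs -/
def sg (b : Bool) : ℝ := if b then 1 else -1

theorem measurable_sg : Measurable sg := measurable_of_finite _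

def r (j : ℤ) (ω : Seq) : ℝ := sg (ω j)

theorem measurable_r (j : ℤ) : Measurable (r j) := measurable_sg.comp (measurable_pi_apply j)

theorem r_sq (j : ℤ) (ω : Seq) : r j ω * r j ω = 1 := by
  unfold r sg; split_ifs <;> norm_num

theorem abs_r (j : ℤ) (ω : Seq) : |r j ω| = 1 := by
  unfold r sg; split_ifs <;> norm_num

theorem integral_sg : ∫ b, sg b ∂coin = 0 := by
  unfold coin
  rw [integral_add_measure, integral_smul_measure, integral_smul_measure, integral_dirac,
    integral_dirac]
  · simp [sg]
  · exact (integrable_dirac (by simp)).smul_measure (by simp)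
  · exact (integrable_dirac (by simp)).smul_measure (by simp)

theorem integral_r (j : ℤ) : ∫ ω, r j ω ∂nu = 0 := by
  have h := (measurePreserving_eval_infinitePi (fun _ : ℤ => coin) j).map_eq
  have h2 : ∫ b, sg b ∂(nu.map (Function.eval j)) = ∫ ω, sg (Function.eval j ω) ∂nu :=
    integral_map (measurable_pi_apply j).aemeasurable measurable_sg.aestronglyMeasurable
  unfold nu at h2 ⊢
  rw [h, integral_sg] at h2
  exact h2.symm

theorem r_orth (i j : ℤ) : ∫ ω, r i ω * r j ω ∂nu = if i = j then 1 else 0 := by
  split_ifs with hij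
  · subst hij
    simp [r_sq]
  · have hind : IndepFun (r i) (r j) nu :=
      (iIndepFun_infinitePi (P := fun _ : ℤ => coin) (X := fun _ : ℤ => sg)
        (fun _ => measurable_sg)).indepFun hij
    rw [hind.integral_fun_mul_eq_mul_integral (measurable_r i).aestronglyMeasurable
      (measurable_r j).aestronglyMeasurable, integral_r, zero_mul]

section bessel

variable (B : Set Seq)

/-- indicator -/
def ind (ω : Seq) : ℝ := B.indicator (fun _ => (1 : ℝ)) ω

variable {B}

theorem measurable_ind (hB : MeasurableSet B) : Measurable (ind B) :=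
  measurable_const.indicator hB

theorem ind_bound (ω : Seq) : |ind B ω| ≤ 1 := by
  unfold ind Set.indicator; split_ifs <;> norm_num

theorem ind_sq (ω : Seq) : ind B ω * ind B ω = ind B ω := by
  unfold ind Set.indicator; split_ifs <;> norm_num

theorem integral_ind (hB : MeasurableSet B) : ∫ ω, ind B ω ∂nu = nu.real B := by
  unfold ind
  rw [integral_indicator hB]
  simp [Measure.real]

theorem integrable_ind (hB : MeasurableSet B) : Integrable (ind B) nu :=
  Integrable.of_bound (measurable_ind hB).aestronglyMeasurable 1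
    (Eventually.of_forall fun ω => by rw [Real.norm_eq_abs]; exact ind_bound ω)

theorem integrable_ind_r (hB : MeasurableSet B) (j : ℤ) :
    Integrable (fun ω => ind B ω * r j ω) nu :=
  Integrable.of_bound ((measurable_ind hB).mul (measurable_r j)).aestronglyMeasurable 1
    (Eventually.of_forall fun ω => by
      rw [Real.norm_eq_abs, abs_mul, abs_r, mul_one]; exact ind_bound ω)

theorem integrable_rr (i j : ℤ) : Integrable (fun ω => r i ω * r j ω) nu :=
  Integrable.of_bound ((measurable_r i).mul (measurable_r j)).aestronglyMeasurable 1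
    (Eventually.of_forall fun ω => by
      rw [Real.norm_eq_abs, abs_mul, abs_r, abs_r, mul_one])

/-- Rademacher coefficients of an indicator -/
def co (B : Set Seq) (n : ℕ) : ℝ := ∫ ω, ind B ω * r (-n) ω ∂nu

theorem bessel (hB : MeasurableSet B) (N : ℕ) : ∑ n ∈ range N, co B n ^ 2 ≤ 1 := by
  set g : Seq → ℝ := fun ω => ∑ n ∈ range N, co B n * r (-n) ω with hg
  have h0 : 0 ≤ ∫ ω, (ind B ω - g ω) ^ 2 ∂nu := integral_nonneg fun ω => sq_nonneg _
  have hexp : ∀ ω, (ind B ω - g ω) ^ 2 = ind B ω -
      2 * (∑ n ∈ range N, co B n * (ind B ω * r (-n) ω)) +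
      ∑ m ∈ range N, ∑ n ∈ range N, (co B m * co B n) * (r (-m) ω * r (-n) ω) := by
    intro ω
    have e1 : g ω * g ω = ∑ m ∈ range N, ∑ n ∈ range N,
        (co B m * co B n) * (r (-m) ω * r (-n) ω) := by
      rw [hg]
      simp only [sum_mul, mul_sum]
      rw [sum_comm]
      exact sum_congr rfl fun m _ => sum_congr rfl fun n _ => by ring
    have e2 : ind B ω * g ω = ∑ n ∈ range N, co B n * (ind B ω * r (-n) ω) := by
      rw [hg]
      simp only [mul_sum]
      exact sum_congr rfl fun n _ => by ring
    rw [← e1, ← e2, ← ind_sq ω]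
    have := ind_sq (B := B) ω
    ring_nf
    rw [show ind B ω ^ 4 = (ind B ω * ind B ω) * (ind B ω * ind B ω) by ring, this] at *
    nlinarith [this]
  have hi1 : Integrable (fun ω => ∑ n ∈ range N, co B n * (ind B ω * r (-n) ω)) nu :=
    integrable_finset_sum _ fun n _ => (integrable_ind_r hB _).const_mul _
  have hi2 : Integrable (fun ω => ∑ m ∈ range N, ∑ n ∈ range N,
      (co B m * co B n) * (r (-m) ω * r (-n) ω)) nu :=
    integrable_finset_sum _ fun m _ => integrable_finset_sum _ fun n _ =>
      (integrable_rr _ _).const_mul _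
  have hint : ∫ ω, (ind B ω - g ω) ^ 2 ∂nu = nu.real B - ∑ n ∈ range N, co B n ^ 2 := by
    simp only [hexp]
    have hi3 : Integrable (fun ω => ind B ω -
        2 * (∑ n ∈ range N, co B n * (ind B ω * r (-n) ω))) nu :=
      (integrable_ind hB).sub (hi1.const_mul 2)
    rw [integral_add hi3 hi2,
      integral_sub (integrable_ind hB) (hi1.const_mul 2), integral_const_mul, integral_ind hB,
      integral_finset_sum _ (fun n _ => (integrable_ind_r hB _).const_mul _),
      integral_finset_sum _ (fun m _ => integrable_finset_sum _ fun n _ =>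
        (integrable_rr _ _).const_mul _)]
    have e1 : ∀ n ∈ range N, ∫ ω, co B n * (ind B ω * r (-n) ω) ∂nu = co B n ^ 2 := by
      intro n _
      rw [integral_const_mul]
      change co B n * co B n = _
      ring
    have e2 : ∀ m ∈ range N, ∫ ω, ∑ n ∈ range N, (co B m * co B n) * (r (-m) ω * r (-n) ω) ∂nu =
        co B m ^ 2 := by
      intro m hm
      rw [integral_finset_sum _ (fun n _ => (integrable_rr _ _).const_mul _)]
      have e3 : ∀ n ∈ range N, ∫ ω, (co B m * co B n) * (r (-m) ω * r (-n) ω) ∂nu =
          if m = n then co B m ^ 2 else 0 := by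
        intro n _
        rw [integral_const_mul, r_orth]
        have : ((-(m : ℤ)) = -(n : ℤ)) ↔ m = n := by
          rw [neg_inj, Nat.cast_inj]
        simp only [this]
        split_ifs with h
        · subst h; ring
        · ring
      rw [sum_congr rfl e3, sum_ite_eq (range N) m]
      rw [if_pos hm]
    rw [sum_congr rfl e1, sum_congr rfl e2]
    ring
  have hle : nu.real B ≤ 1 := measureReal_le_one
  linarith

theorem co_tendsto (hB : MeasurableSet B) : Tendsto (co B) atTop (𝓝 0) := by
  have hs : Summable fun n => co B n ^ 2 :=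
    summable_of_sum_range_le (fun n => sq_nonneg _) (bessel hB)
  have h := hs.tendsto_atTop_zero
  rw [tendsto_zero_iff_abs_tendsto_zero]
  have h2 : Tendsto (fun n => Real.sqrt (co B n ^ 2)) atTop (𝓝 (Real.sqrt 0)) :=
    (Real.continuous_sqrt.tendsto 0).comp h
  rw [Real.sqrt_zero] at h2
  refine h2.congr fun n => ?_
  rw [Real.sqrt_sq_eq_abs]
  rfl

/-- the event that a coordinate is `true` -/
def one (j : ℤ) : Set Seq := {ω | ω j = true}

theorem measurable_one (j : ℤ) : MeasurableSet (one j) :=
  measurableSet_eq_fun (measurable_pi_apply j) measurable_const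

theorem co_eq (hB : MeasurableSet B) (n : ℕ) :
    2 * nu.real (one (-n) ∩ B) = nu.real B + co B n := by
  have h1 : ∀ ω, ind B ω * r (-n) ω = 2 * ind (one (-n) ∩ B) ω - ind B ω := by
    intro ω
    unfold ind r sg Set.indicator one
    by_cases h : ω ∈ B <;> by_cases h2 : ω (-n) = true <;> simp [h, h2] <;> norm_num
  have h2 : co B n = 2 * nu.real (one (-n) ∩ B) - nu.real B := by
    unfold co
    simp only [h1]
    rw [integral_sub ((integrable_ind ((measurable_one _).inter hB)).const_mul 2)
      (integrable_ind hB), integral_const_mul, integral_ind ((measurable_one _).inter hB),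
      integral_ind hB]
  linarith

end bessel

theorem nu_one (j : ℤ) : nu (one j) = 2⁻¹ := by
  have hs : MeasurableSet ({true} : Set Bool) := measurableSet_singleton true
  have h := (measurePreserving_eval_infinitePi (fun _ : ℤ => coin) j).measure_preimage
    hs.nullMeasurableSet
  have h' : nu (one j) = coin {true} := h
  rw [h']
  simp [coin]

/-- the law under which the coordinate `0` is `true` -/
def nu1 : Measure Seq := nu[|one 0]

instance : IsProbabilityMeasure nu1 := by
  unfold nu1
  exact cond_isProbabilityMeasure (by rw [nu_one]; simp)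

theorem nu1_apply (A : Set Seq) : nu1.real A = 2 * nu.real (one 0 ∩ A) := by
  unfold nu1 Measure.real
  rw [cond_apply (measurable_one 0), nu_one, inv_inv, ENNReal.toReal_mul]
  simp

/-- the path of shifts -/
def path (ω : Seq) : ℕ → Seq := fun k => sh k ω

theorem measurable_path : Measurable path := measurable_pi_lambda _ fun k => measurable_sh k

theorem sh_sh (n k : ℕ) (ω : Seq) : sh (n + k) ω = sh k (sh n ω) := by
  unfold sh
  ext j
  push_cast
  congr 1
  ring

theorem event_eq (A : Set (ℕ → Seq)) (n : ℕ) :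
    {ω | (fun k => sh (n + k) ω) ∈ A} = sh n ⁻¹' (path ⁻¹' A) := by
  ext ω
  simp only [Set.mem_preimage, path, sh_sh]
  rfl

theorem prob_eq {A : Set (ℕ → Seq)} (hA : MeasurableSet A) (n : ℕ) :
    nu1.real {ω | (fun k => sh (n + k) ω) ∈ A} = nu.real (path ⁻¹' A) + co (path ⁻¹' A) n := by
  have hB : MeasurableSet (path ⁻¹' A) := measurable_path hA
  rw [event_eq, nu1_apply, ← co_eq hB]
  congr 1
  have e : one 0 ∩ sh n ⁻¹' (path ⁻¹' A) = sh n ⁻¹' (one (-n) ∩ path ⁻¹' A) := by
    rw [Set.preimage_inter]
    congr 1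
    ext ω
    simp [one, sh]
  rw [e]
  unfold Measure.real
  rw [← Measure.map_apply (measurable_sh n) ((measurable_one _).inter hB), map_sh]

end

/-- There are a measurable space `E` and two `E`-valued processes `X`, `X'` (on probability spaces
`(Ω, P)` and `(Ω', P')`) such that `P(θ_n X ∈ A) → P'(X' ∈ A)` for every measurable set `A` of
paths, while for every `n` the supremum over `A` of `|P(θ_n X ∈ A) - P'(X' ∈ A)|` is at least
`1/2`; in particular it does not tend to `0`. -/
theorem result :
    ∃ (E Ω Ω' : Type) (_ : MeasurableSpace E) (_ : MeasurableSpace Ω) (_ : MeasurableSpace Ω')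
      (P : Measure Ω) (P' : Measure Ω') (_ : IsProbabilityMeasure P) (_ : IsProbabilityMeasure P')
      (X : ℕ → Ω → E) (X' : ℕ → Ω' → E),
      (∀ k, Measurable (X k)) ∧ (∀ k, Measurable (X' k)) ∧
      (∀ A : Set (ℕ → E), MeasurableSet A →
        Tendsto (fun n => P.real {ω | (fun k => X (n + k) ω) ∈ A}) atTop
          (𝓝 (P'.real {ω | (fun k => X' k ω) ∈ A}))) ∧
      (∀ n, 1 / 2 ≤ ⨆ A : {A : Set (ℕ → E) // MeasurableSet A},
        |P.real {ω | (fun k => X (n + k) ω) ∈ A.1} - P'.real {ω | (fun k => X' k ω) ∈ A.1}|) ∧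
      ¬ Tendsto (fun n => ⨆ A : {A : Set (ℕ → E) // MeasurableSet A},
        |P.real {ω | (fun k => X (n + k) ω) ∈ A.1} - P'.real {ω | (fun k => X' k ω) ∈ A.1}|)
        atTop (𝓝 0) := by
  have hhalf : ∀ n : ℕ, 1 / 2 ≤ ⨆ A : {A : Set (ℕ → Seq) // MeasurableSet A},
      |nu1.real {ω | (fun k => sh (n + k) ω) ∈ A.1} - nu.real {ω | (fun k => sh k ω) ∈ A.1}| := by
    intro n
    let A0 : Set (ℕ → Seq) := {x | x 0 (-n) = true}
    have hA0 : MeasurableSet A0 := by
      refine measurableSet_eq_fun ?_ measurable_const
      exact (measurable_pi_apply (-(n : ℤ))).comp (measurable_pi_apply 0)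
    have hbdd : BddAbove (Set.range fun A : {A : Set (ℕ → Seq) // MeasurableSet A} =>
        |nu1.real {ω | (fun k => sh (n + k) ω) ∈ A.1} -
          nu.real {ω | (fun k => sh k ω) ∈ A.1}|) := by
      refine ⟨1, ?_⟩
      rintro x ⟨A, rfl⟩
      have h1 : nu1.real {ω | (fun k => sh (n + k) ω) ∈ A.1} ≤ 1 := measureReal_le_one
      have h2 : nu.real {ω | (fun k => sh k ω) ∈ A.1} ≤ 1 := measureReal_le_one
      have h3 : 0 ≤ nu1.real {ω | (fun k => sh (n + k) ω) ∈ A.1} := measureReal_nonneg
      have h4 : 0 ≤ nu.real {ω | (fun k => sh k ω) ∈ A.1} := measureReal_nonneg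
      simp only
      rw [abs_le]
      constructor <;> linarith
    refine le_trans ?_ (le_ciSup hbdd ⟨A0, hA0⟩)
    have e1 : {ω | (fun k => sh (n + k) ω) ∈ A0} = one 0 := by
      ext ω
      simp [A0, one, sh]
    have e2 : {ω | (fun k => sh k ω) ∈ A0} = one (-n) := by
      ext ω
      simp [A0, one, sh]
    simp only
    rw [e1, e2, nu1_apply, Set.inter_self]
    unfold Measure.real
    rw [nu_one, nu_one]
    norm_num
  refine ⟨Seq, Seq, Seq, inferInstance, inferInstance, inferInstance, nu1, nu, inferInstance,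
    inferInstance, fun k => sh k, fun k => sh k, measurable_sh, measurable_sh, ?_, hhalf, ?_⟩
  · intro A hA
    have h := (co_tendsto (measurable_path hA)).const_add (nu.real (path ⁻¹' A))
    rw [add_zero] at h
    exact h.congr fun n => (prob_eq hA n).symm
  · intro hcon
    have := ge_of_tendsto' hcon hhalf
    norm_num at this

end Pool.Agent.Results.MP_a1f67d_pr.SetwiseNotTV
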